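import Mathlib
import Pool.Agent.TH407.MZ.Defs
import Pool.Agent.TH993.MV.Schur
set_option autoImplicit false

/-!
# The positive kernel with the weight `κ`: weighted Schur test in symmetric coordinates
(adaptation of `Pool.Agent.TH993.MV.Schur`)
-/

namespace Pool.Agent.TH751.MZ

open MeasureTheory Set Complex
open scoped ENNReal NNReal Real ComplexConjugate
open Pool.Agent.TH407 Pool.Agent.TH407.MZ
open Pool.Agent.TH993.MV (int_sq int_v int_log' change schur_test res weight)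

/-- the integrand in symmetric coordinates -/
noncomputable def FF (t κ s P u v : ℝ) : ℝ :=
  (2 * |v| + 1 / t) * (1 / ((1 + t * |u - s|) + (t * κ) * |v ^ 2 - (u ^ 2 / 4 - P)|) ^ 2)

theorem FF_int (t κ s P u : ℝ) (ht : 1 ≤ t) (hκ : 0 < κ) :
    ∫⁻ v in Icc (-1 : ℝ) 1, ENNReal.ofReal (FF t κ s P u v) ≤
      ENNReal.ofReal (2 * π / (t * κ)) * ENNReal.ofReal (1 / (1 + t * |u - s|)) +
        ENNReal.ofReal (2 / t) * ENNReal.ofReal (1 / (1 + t * |u - s|) ^ 2) := by
  have ht0 : 0 < t := by linarith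
  have htk : 0 < t * κ := by positivity
  set a := 1 + t * |u - s| with ha
  have ha0 : 0 < a := by positivity
  set c := u ^ 2 / 4 - P with hc
  have hpos : ∀ v : ℝ, 0 < a + (t * κ) * |v ^ 2 - c| := fun v => by positivity
  have h1 : ∀ v : ℝ, ENNReal.ofReal (FF t κ s P u v) ≤
      ENNReal.ofReal (2 * |v| / (a + (t * κ) * |v ^ 2 - c|) ^ 2) +
        ENNReal.ofReal (1 / t * (1 / a ^ 2)) := by
    intro v
    rw [← ENNReal.ofReal_add (by positivity) (by positivity)]
    apply ENNReal.ofReal_le_ofReal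
    have h2 : 1 / (a + (t * κ) * |v ^ 2 - c|) ^ 2 ≤ 1 / a ^ 2 := by
      apply one_div_le_one_div_of_le (by positivity)
      have : 0 ≤ (t * κ) * |v ^ 2 - c| := by positivity
      nlinarith
    have h3 : FF t κ s P u v = 2 * |v| / (a + (t * κ) * |v ^ 2 - c|) ^ 2 +
        1 / t * (1 / (a + (t * κ) * |v ^ 2 - c|) ^ 2) := by
      rw [FF, ← ha, ← hc]
      ring
    rw [h3]
    have h4 : 1 / t * (1 / (a + (t * κ) * |v ^ 2 - c|) ^ 2) ≤ 1 / t * (1 / a ^ 2) :=
      mul_le_mul_of_nonneg_left h2 (by positivity)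
    linarith
  calc ∫⁻ v in Icc (-1 : ℝ) 1, ENNReal.ofReal (FF t κ s P u v)
      ≤ ∫⁻ v in Icc (-1 : ℝ) 1, (ENNReal.ofReal (2 * |v| / (a + (t * κ) * |v ^ 2 - c|) ^ 2) +
          ENNReal.ofReal (1 / t * (1 / a ^ 2))) := lintegral_mono h1
    _ = (∫⁻ v in Icc (-1 : ℝ) 1, ENNReal.ofReal (2 * |v| / (a + (t * κ) * |v ^ 2 - c|) ^ 2)) +
          ∫⁻ v in Icc (-1 : ℝ) 1, ENNReal.ofReal (1 / t * (1 / a ^ 2)) :=
        lintegral_add_right _ measurable_const
    _ ≤ ENNReal.ofReal (2 * π / ((t * κ) * a)) + ENNReal.ofReal (2 / t * (1 / a ^ 2)) := by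
        apply add_le_add
        · exact (setLIntegral_le_lintegral _ _).trans (int_v a (t * κ) c ha0 htk)
        · rw [setLIntegral_const, Real.volume_Icc, ← ENNReal.ofReal_mul (by positivity)]
          apply ENNReal.ofReal_le_ofReal
          apply le_of_eq
          ring
    _ = ENNReal.ofReal (2 * π / (t * κ)) * ENNReal.ofReal (1 / a) +
        ENNReal.ofReal (2 / t) * ENNReal.ofReal (1 / a ^ 2) := by
        rw [← ENNReal.ofReal_mul (by positivity), ← ENNReal.ofReal_mul (by positivity)]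
        congr 2
        field_simp

theorem inner (t κ x1 x2 : ℝ) (ht : 1 ≤ t) (hκ : 0 < κ) (h1 : |x1| ≤ 1) (h2 : |x2| ≤ 1) :
    ∫⁻ x3 in Icc (-1 : ℝ) 1, ∫⁻ x4 in Icc (-1 : ℝ) 1, ENNReal.ofReal (|x3 - x4| + 1 / t) *
      ENNReal.ofReal (1 / (1 + t * dK κ x1 x2 x3 x4) ^ 2) ≤
      ENNReal.ofReal (60 * ((1 + κ) * (1 + Real.log t) / (t ^ 2 * κ))) := by
  have ht0 : 0 < t := by linarith
  set s := x1 + x2 with hs
  set P := x1 * x2 with hP
  set Φ : ℝ → ℝ → ℝ≥0∞ := fun u v =>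
    (Icc (-2 : ℝ) 2 ×ˢ Icc (-1 : ℝ) 1).indicator
      (fun p => ENNReal.ofReal (FF t κ s P p.1 p.2)) (u, v) with hΦ
  have hFm : Measurable (fun p : ℝ × ℝ => ENNReal.ofReal (FF t κ s P p.1 p.2)) := by
    unfold FF
    fun_prop
  have hΦm : Measurable (fun p : ℝ × ℝ => Φ p.1 p.2) := by
    simp only [hΦ]
    exact hFm.indicator (measurableSet_Icc.prod measurableSet_Icc)
  have hA : ∫⁻ x3 in Icc (-1 : ℝ) 1, ∫⁻ x4 in Icc (-1 : ℝ) 1,
      ENNReal.ofReal (|x3 - x4| + 1 / t) * ENNReal.ofReal (1 / (1 + t * dK κ x1 x2 x3 x4) ^ 2) ≤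
      ∫⁻ x3 : ℝ, ∫⁻ x4 : ℝ, Φ (x3 + x4) ((x4 - x3) / 2) := by
    refine le_trans (setLIntegral_mono' measurableSet_Icc fun x3 hx3 => ?_)
      (setLIntegral_le_lintegral (Icc (-1 : ℝ) 1) _)
    refine le_trans (setLIntegral_mono' measurableSet_Icc fun x4 hx4 => ?_)
      (setLIntegral_le_lintegral (Icc (-1 : ℝ) 1) _)
    have hmem : (x3 + x4, (x4 - x3) / 2) ∈ Icc (-2 : ℝ) 2 ×ˢ Icc (-1 : ℝ) 1 := by
      simp only [mem_prod, mem_Icc] at hx3 hx4 ⊢
      refine ⟨⟨?_, ?_⟩, ?_, ?_⟩ <;> linarith [hx3.1, hx3.2, hx4.1, hx4.2]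
    simp only [hΦ, indicator_of_mem hmem]
    rw [← ENNReal.ofReal_mul (by positivity)]
    apply ENNReal.ofReal_le_ofReal
    apply le_of_eq
    rw [FF, dK]
    have e1 : |x3 - x4| = 2 * |(x4 - x3) / 2| := by
      rw [abs_div, abs_two, abs_sub_comm]
      ring
    have e2 : |x1 + x2 - x3 - x4| = |x3 + x4 - s| := by
      rw [hs, abs_sub_comm (x3 + x4)]
      congr 1
      ring
    have e3 : |x1 * x2 - x3 * x4| = |((x4 - x3) / 2) ^ 2 - ((x3 + x4) ^ 2 / 4 - P)| := by
      rw [hP]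
      congr 1
      ring
    rw [e1, e2, e3, mul_add, add_assoc, mul_assoc t κ]
  have hC : ∀ u, ∫⁻ v : ℝ, Φ u v ≤ (Icc (-2 : ℝ) 2).indicator (fun u =>
      ENNReal.ofReal (2 * π / (t * κ)) * ENNReal.ofReal (1 / (1 + t * |u - s|)) +
        ENNReal.ofReal (2 / t) * ENNReal.ofReal (1 / (1 + t * |u - s|) ^ 2)) u := by
    intro u
    by_cases hu : u ∈ Icc (-2 : ℝ) 2
    · rw [indicator_of_mem hu]
      refine le_trans (le_of_eq ?_) (FF_int t κ s P u ht hκ)
      rw [← lintegral_indicator measurableSet_Icc]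
      refine lintegral_congr fun v => ?_
      simp only [hΦ]
      by_cases hv : v ∈ Icc (-1 : ℝ) 1
      · rw [indicator_of_mem hv, indicator_of_mem (mk_mem_prod hu hv)]
      · rw [indicator_of_notMem hv, indicator_of_notMem (fun h => hv h.2)]
    · rw [indicator_of_notMem hu]
      have h0 : ∀ v, Φ u v = 0 := by
        intro v
        simp only [hΦ]
        rw [indicator_of_notMem (fun h => hu h.1)]
      simp only [h0, lintegral_zero, le_refl]
  have hlog := Real.log_nonneg ht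
  calc _ ≤ ∫⁻ x3 : ℝ, ∫⁻ x4 : ℝ, Φ (x3 + x4) ((x4 - x3) / 2) := hA
    _ = ∫⁻ u : ℝ, ∫⁻ v : ℝ, Φ u v := change Φ hΦm
    _ ≤ ∫⁻ u in Icc (-2 : ℝ) 2,
          (ENNReal.ofReal (2 * π / (t * κ)) * ENNReal.ofReal (1 / (1 + t * |u - s|)) +
          ENNReal.ofReal (2 / t) * ENNReal.ofReal (1 / (1 + t * |u - s|) ^ 2)) := by
        rw [← lintegral_indicator measurableSet_Icc]
        exact lintegral_mono hC
    _ = ENNReal.ofReal (2 * π / (t * κ)) *
          (∫⁻ u in Icc (-2 : ℝ) 2, ENNReal.ofReal (1 / (1 + t * |u - s|))) +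
        ENNReal.ofReal (2 / t) *
          ∫⁻ u in Icc (-2 : ℝ) 2, ENNReal.ofReal (1 / (1 + t * |u - s|) ^ 2) := by
        rw [lintegral_add_left (by fun_prop), lintegral_const_mul _ (by fun_prop),
          lintegral_const_mul _ (by fun_prop)]
    _ ≤ ENNReal.ofReal (2 * π / (t * κ)) * ENNReal.ofReal (8 * (1 + Real.log t) / t) +
        ENNReal.ofReal (2 / t) * ENNReal.ofReal (π / (t * 1)) := by
        gcongr
        · apply int_log' t s 2 ht
          have := abs_add_le x1 x2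
          linarith
        · exact (setLIntegral_le_lintegral _ _).trans (int_sq 1 t s one_pos ht0)
    _ ≤ ENNReal.ofReal (60 * ((1 + κ) * (1 + Real.log t) / (t ^ 2 * κ))) := by
        rw [← ENNReal.ofReal_mul (by positivity), ← ENNReal.ofReal_mul (by positivity),
          ← ENNReal.ofReal_add (by positivity) (by positivity)]
        apply ENNReal.ofReal_le_ofReal
        have h3 : 2 * π / (t * κ) * (8 * (1 + Real.log t) / t) + 2 / t * (π / (t * 1)) =
            π * (16 * (1 + Real.log t) + 2 * κ) / (t ^ 2 * κ) := by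
          field_simp
          ring
        have h5 : 60 * ((1 + κ) * (1 + Real.log t) / (t ^ 2 * κ)) =
            (60 * (1 + κ) * (1 + Real.log t)) / (t ^ 2 * κ) := by
          ring
        rw [h3, h5]
        apply div_le_div_of_nonneg_right _ (by positivity)
        have h4 := Real.pi_lt_d2
        have h6 : π * (16 * (1 + Real.log t) + 2 * κ) ≤
            3.15 * (16 * (1 + Real.log t) + 2 * κ) :=
          mul_le_mul_of_nonneg_right h4.le (by positivity)
        have h7 : 0 ≤ κ * Real.log t := by positivity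
        nlinarith

theorem schurz : Schurz := by
  refine ⟨480, fun t κ g B ht hκ hg hg0 hgB => ?_⟩
  have ht0 : 0 < t := by linarith
  have hlog := Real.log_nonneg ht
  set S := Icc (-1 : ℝ) 1 with hS
  set μ := (volume : Measure ℝ).restrict S with hμ
  set G : ℝ × ℝ → ℝ≥0∞ := fun p => g p.1 * g p.2 with hG
  set W : ℝ × ℝ → ℝ≥0∞ := fun p => ENNReal.ofReal (|p.1 - p.2| + 1 / t) with hW
  set K : ℝ × ℝ → ℝ × ℝ → ℝ≥0∞ := fun p q =>
    ENNReal.ofReal (1 / (1 + t * dK κ p.1 p.2 q.1 q.2) ^ 2) with hK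
  have hGm : Measurable G := by
    simp only [hG]
    fun_prop
  have hWm : Measurable W := by
    simp only [hW]
    fun_prop
  have hKm : Measurable (fun p : (ℝ × ℝ) × (ℝ × ℝ) => K p.1 p.2) := by
    simp only [hK]
    unfold dK
    fun_prop
  have hgf : ∀ x, g x ≠ ∞ := fun x => ne_top_of_le_ne_top ENNReal.coe_ne_top (hgB x)
  have habs : ∀ x : ℝ, g x ≠ 0 → |x| ≤ 1 := by
    intro x hx
    by_contra h
    apply hx
    apply hg0
    intro h'
    exact h (abs_le.2 h')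
  have hA : ∀ p, G p ≠ 0 → ∫⁻ q, W q * K p q ∂(μ.prod μ) ≤
      ENNReal.ofReal (60 * ((1 + κ) * (1 + Real.log t) / (t ^ 2 * κ))) := by
    intro p hp
    have h1 : g p.1 ≠ 0 := fun h => hp (by simp only [hG, h, zero_mul])
    have h2 : g p.2 ≠ 0 := fun h => hp (by simp only [hG, h, mul_zero])
    rw [lintegral_prod _ (by
      apply Measurable.aemeasurable
      exact hWm.mul (hKm.comp (f := fun q : ℝ × ℝ => (p, q)) (by fun_prop)))]
    exact inner t κ p.1 p.2 ht hκ (habs _ h1) (habs _ h2)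
  have hlhs : ∫⁻ x1, ∫⁻ x2, ∫⁻ x3, ∫⁻ x4, g x1 * g x2 * g x3 * g x4 *
      ENNReal.ofReal (1 / (1 + t * dK κ x1 x2 x3 x4) ^ 2) =
      ∫⁻ p, ∫⁻ q, G p * G q * K p q ∂(μ.prod μ) ∂(μ.prod μ) := by
    have hm : Measurable (fun p : (ℝ × ℝ) × (ℝ × ℝ) => G p.1 * G p.2 * K p.1 p.2) := by
      fun_prop
    rw [lintegral_prod _ hm.lintegral_prod_right'.aemeasurable, res _ (by
      intro x1 hx1
      simp [hg0 x1 hx1])]
    refine lintegral_congr fun x1 => ?_
    rw [res _ (by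
      intro x2 hx2
      simp [hg0 x2 hx2])]
    refine lintegral_congr fun x2 => ?_
    rw [lintegral_prod _ (by
      apply Measurable.aemeasurable
      exact hm.comp (f := fun q : ℝ × ℝ => ((x1, x2), q)) (by fun_prop)), res _ (by
      intro x3 hx3
      simp [hg0 x3 hx3])]
    refine lintegral_congr fun x3 => ?_
    rw [res _ (by
      intro x4 hx4
      simp [hg0 x4 hx4])]
    refine lintegral_congr fun x4 => ?_
    simp only [hG, hK, mul_assoc]
  have hrhs : ∫⁻ p, G p ^ 2 * (W p)⁻¹ ∂(μ.prod μ) ≤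
      (B : ℝ≥0∞) ^ 2 * ENNReal.ofReal (8 * (1 + Real.log t)) * ∫⁻ x, g x ^ 2 := by
    rw [lintegral_prod _ (by
      apply Measurable.aemeasurable
      fun_prop)]
    refine le_trans ?_ (mul_le_mul_right (setLIntegral_le_lintegral S _) _)
    rw [← lintegral_const_mul _ (by fun_prop)]
    apply lintegral_mono
    intro x
    by_cases h0 : g x = 0
    · simp [hG, h0]
    · have h1 : ∀ y, G (x, y) ^ 2 * (W (x, y))⁻¹ ≤
          g x ^ 2 * (B : ℝ≥0∞) ^ 2 * (ENNReal.ofReal (|x - y| + 1 / t))⁻¹ := by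
        intro y
        simp only [hG, hW, mul_pow]
        gcongr
        exact hgB y
      refine (lintegral_mono h1).trans ?_
      rw [lintegral_const_mul _ (by fun_prop)]
      calc g x ^ 2 * (B : ℝ≥0∞) ^ 2 * ∫⁻ y in S, (ENNReal.ofReal (|x - y| + 1 / t))⁻¹
          ≤ g x ^ 2 * (B : ℝ≥0∞) ^ 2 * ENNReal.ofReal (8 * (1 + Real.log t)) := by
            gcongr
            exact weight t x ht (habs x h0)
        _ = (B : ℝ≥0∞) ^ 2 * ENNReal.ofReal (8 * (1 + Real.log t)) * g x ^ 2 := by ring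
  rw [hlhs]
  refine (schur_test (μ.prod μ) G W K hGm hWm hKm ?_ ?_ ?_ ?_ _ hA).trans ?_
  · intro p q
    simp only [hK, dK]
    have e1 : |p.1 + p.2 - q.1 - q.2| = |q.1 + q.2 - p.1 - p.2| := by
      rw [← abs_neg]
      congr 1
      ring
    rw [e1, abs_sub_comm (p.1 * p.2)]
  · intro p
    exact ENNReal.mul_ne_top (hgf _) (hgf _)
  · intro p
    simp only [hW]
    rw [ENNReal.ofReal_ne_zero_iff]
    positivity
  · intro p
    exact ENNReal.ofReal_ne_top
  · refine (mul_le_mul_right hrhs _).trans (le_of_eq ?_)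
    have h1 : ENNReal.ofReal (60 * ((1 + κ) * (1 + Real.log t) / (t ^ 2 * κ))) *
        ENNReal.ofReal (8 * (1 + Real.log t)) =
        480 * ENNReal.ofReal ((1 + κ) * (1 + Real.log t) ^ 2 / (t ^ 2 * κ)) := by
      rw [← ENNReal.ofReal_mul (by positivity), show (480 : ℝ≥0∞) = ENNReal.ofReal 480 by simp,
        ← ENNReal.ofReal_mul (by norm_num)]
      congr 1
      ring
    calc _ = (ENNReal.ofReal (60 * ((1 + κ) * (1 + Real.log t) / (t ^ 2 * κ))) *
        ENNReal.ofReal (8 * (1 + Real.log t))) * (B : ℝ≥0∞) ^ 2 * ∫⁻ x, g x ^ 2 := by ring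
      _ = _ := by
        rw [h1]
        simp

end Pool.Agent.TH751.MZ
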